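import Pool.Agent.R985.HG.Fin
import Pool.Agent.R985.HG.P_BOX
import Pool.Agent.R985.HG.P_CUT
import Pool.Agent.R985.HG.P_DEG
import Pool.Agent.R985.HG.P_E12
import Pool.Agent.R985.HG.P_E1LB
import Pool.Agent.R985.HG.P_E2UB
import Pool.Agent.R985.HG.P_GM
import Pool.Agent.R985.HG.P_INNER
import Pool.Agent.R985.HG.P_M1
import Pool.Agent.R985.HG.P_M2b
import Pool.Agent.R985.HG.P_MEAN
import Pool.Agent.R985.HG.P_MOM
import Pool.Agent.R985.HG.P_NEG
import Pool.Agent.R985.HG.P_PLB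
import Pool.Agent.R985.HG.P_PM
import Pool.Agent.R985.HG.P_POL
import Pool.Agent.R985.HG.P_POS
import Pool.Agent.R985.HG.P_PUB
import Pool.Agent.R985.HG.P_PW
import Pool.Agent.R985.HG.P_Q2
import Pool.Agent.R985.HG.P_RHO
import Pool.Agent.R985.HG.P_ROT
import Pool.Agent.R985.HG.P_SM
import Pool.Agent.R985.HG.P_SMALL
import Pool.Agent.R985.HG.P_SPR1
import Pool.Agent.R985.HG.P_SPR2
import Pool.Agent.R985.HG.P_SUM

/-!
# MP_bbc1a5_pr, Q1: the connectivity threshold of hyperbolic random graphs at `β = 1`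

For all admissible `(ζ, α)`: the graph `𝒢(N; ζ, α, 1)` is connected a.a.s. if
`ζ/α ≥ 2 - 4/π`, and disconnected a.a.s. if `ζ/α < 2 - 4/π`.

The model (`HG.rho`, `HG.pt`, `HG.hdist`, `HG.prob`, `HG.model`, `HG.rgraph`) is defined in
`Pool/Agent/R985/HG/Defs.lean`.

Proof pieces by helper6, 85, 107, 115, 160, 172, 173, 184, 209, 249, 268, 326, 331, 394, 576, 668,
695, 702, 725, 731, 792, 880, 891 and 985.
-/

open MeasureTheory Set Filter
open scoped ENNReal Topology BigOperators Real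

namespace Pool.Agent.Results.MP_bbc1a5_pr.ConnectivityThreshold

open HG

theorem posSide : S_POS :=
  let hPM : S_PM := t_PM
  let hAE : S_AE := t_AE
  let hME : S_MEAS := t_MEAS
  let hGM : S_GM := t_GM
  let hPLB : S_PLB := t_PLB
  let hPEL : S_PEL := t_PEL hPLB
  let hPOL : S_POL := t_POL hPM t_ROT
  let hMOM : S_MOM := t_MOM hPM t_RHO
  let hLAP : S_LAP := t_LAP hPM t_RHO
  let hMEAN : S_MEAN := t_MEAN hPM t_RHO
  let hM1 : S_M1 := t_M1 hPM hPOL hMOM hMEAN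
  let hM2 : S_M2 := t_M2b hPM hPOL hMOM
  let hIN : S_INNER := t_INNER hPM hAE hME hPLB hPEL t_PW hM1 hM2
  let hSM : S_SMALL := t_SMALL hPM hAE hME hGM hPEL hIN t_CUT t_BOX hLAP t_SUM
  t_POS hPM hAE hGM hPEL hSM (t_SPR t_SPR1 t_SPR2)

theorem negSide : S_NEG :=
  let hPM : S_PM := t_PM
  let hAE : S_AE := t_AE
  let hME : S_MEAS := t_MEAS
  let hGM : S_GM := t_GM
  let hPEL : S_PEL := t_PEL t_PLB
  let hPOL : S_POL := t_POL hPM t_ROT
  let hMOM : S_MOM := t_MOM hPM t_RHO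
  let hMEAN : S_MEAN := t_MEAN hPM t_RHO
  let hDEG : S_DEG := t_DEG hPM hAE hME hPEL hPOL t_PUB t_RSM hMEAN
  let hQ2 : S_Q2 := t_Q2 hPM hAE hME hPEL hPOL t_PUB t_RSM hMOM
  let hE1 : S_E1 := t_E1 hPM hME hGM hPEL t_CUT t_BOX
  let hE2 : S_E2 := t_E2 hPM hME hGM hPEL t_CUT t_BOX
  let hE1LB : S_E1LB := t_E1LB hPM hME hPEL t_RHO hDEG
  let hE2UB : S_E2UB := t_E2UB hPM hAE hME hPEL hPOL hQ2
  t_NEG hPM hGM t_SM hE1 hE2 hE1LB hE2UB

/-- **Connectivity threshold at `β = 1`.** For `0 < ζ < 2`, `α > 0`, `ζ/α < 2`: the model is a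
probability measure for every `N ≥ 2`, the distance is the nonnegative solution of the hyperbolic
cosine rule, the random graph `𝒢(N; ζ, α, 1)` is connected with probability tending to `1` when
`2 - 4/π ≤ ζ/α`, and with probability tending to `0` when `ζ/α < 2 - 4/π`. -/
theorem result (ζ α : ℝ) (hζ : 0 < ζ) (hζ2 : ζ < 2) (hα : 0 < α) (h : ζ / α < 2) :
    (∀ N : ℕ, 2 ≤ N → IsProbabilityMeasure (model ζ α N)) ∧
    (∀ u v : ℝ × ℝ, 0 ≤ u.1 → 0 ≤ v.1 →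
      0 ≤ hdist ζ u v ∧ Real.cosh (ζ * hdist ζ u v) = cr ζ u v) ∧
    (2 - 4 / π ≤ ζ / α →
      Tendsto (fun N : ℕ => model ζ α N {ω | (rgraph ζ 1 N ω).Connected}) atTop (𝓝 1)) ∧
    (ζ / α < 2 - 4 / π →
      Tendsto (fun N : ℕ => model ζ α N {ω | (rgraph ζ 1 N ω).Connected}) atTop (𝓝 0)) :=
  fin_main t_PM posSide negSide ζ α hζ hζ2 hα h

end Pool.Agent.Results.MP_bbc1a5_pr.ConnectivityThreshold
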